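import Mathlib.Algebra.BigOperators.Ring.Finset
import Mathlib.Data.Fintype.BigOperators
import Mathlib.Algebra.GroupWithZero.Units.Fintype
import Mathlib.Data.Real.Basic
import Mathlib.Analysis.Real.Sqrt
import Mathlib.Tactic

/-!
# Fourier expansion on the cube
-/

set_option autoImplicit false

namespace Pool.Agent.J4H91.AA

open Finset

variable {I : Type} [Fintype I] [DecidableEq I]

/-- characters -/
def chi (S : Finset I) (x : I → ℤˣ) : ℝ := ∏ i ∈ S, ((x i : ℤ) : ℝ)

/-- Fourier coefficients -/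
noncomputable def coef (f : (I → ℤˣ) → ℝ) (S : Finset I) : ℝ :=
  (∑ x, f x * chi S x) / (2 : ℝ) ^ (Fintype.card I)

/-- the mean -/
noncomputable def mean (f : (I → ℤˣ) → ℝ) : ℝ := (∑ x, f x) / (2 : ℝ) ^ (Fintype.card I)

/-- the variance -/
noncomputable def var (f : (I → ℤˣ) → ℝ) : ℝ := mean (fun x => f x ^ 2) - mean f ^ 2

/-- the influence of a coordinate -/
noncomputable def inf (f : (I → ℤˣ) → ℝ) (j : I) : ℝ :=
  mean fun x => ((f (Function.update x j 1) - f (Function.update x j (-1))) / 2) ^ 2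

lemma card_cube : (Fintype.card (I → ℤˣ) : ℝ) = (2 : ℝ) ^ (Fintype.card I) := by
  rw [Fintype.card_fun]
  push_cast
  congr 1

omit [Fintype I] [DecidableEq I] in
lemma chi_empty (x : I → ℤˣ) : chi (∅ : Finset I) x = 1 := by simp [chi]

omit [Fintype I] [DecidableEq I] in
lemma unit_sq (u : ℤˣ) : ((u : ℤ) : ℝ) * ((u : ℤ) : ℝ) = 1 := by
  rcases Int.units_eq_one_or u with h | h <;> simp [h]

omit [DecidableEq I] in
lemma unit_mul_ne (u v : ℤˣ) (h : u ≠ v) : 1 + ((u : ℤ) : ℝ) * ((v : ℤ) : ℝ) = 0 := by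
  rcases Int.units_eq_one_or u with h1 | h1 <;> rcases Int.units_eq_one_or v with h2 | h2
  · exact absurd (h1.trans h2.symm) h
  · simp [h1, h2]
  · simp [h1, h2]
  · exact absurd (h1.trans h2.symm) h

/-- inversion -/
lemma inversion (f : (I → ℤˣ) → ℝ) (x : I → ℤˣ) : f x = ∑ S, coef f S * chi S x := by
  have h1 : ∀ S : Finset I, coef f S * chi S x =
      ∑ y, f y / (2 : ℝ) ^ (Fintype.card I) * ∏ i ∈ S, (((y i : ℤ) : ℝ) * ((x i : ℤ) : ℝ)) := by
    intro S
    rw [coef, sum_div, sum_mul]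
    refine sum_congr rfl fun y _ => ?_
    rw [prod_mul_distrib]
    unfold chi
    ring
  rw [sum_congr rfl fun S _ => h1 S, sum_comm]
  have h2 : ∀ y : I → ℤˣ, ∑ S : Finset I, f y / (2 : ℝ) ^ (Fintype.card I) *
      ∏ i ∈ S, (((y i : ℤ) : ℝ) * ((x i : ℤ) : ℝ)) = if y = x then f x else 0 := by
    intro y
    rw [← mul_sum]
    have h3 : ∑ S : Finset I, ∏ i ∈ S, (((y i : ℤ) : ℝ) * ((x i : ℤ) : ℝ)) =
        ∏ i, (1 + ((y i : ℤ) : ℝ) * ((x i : ℤ) : ℝ)) := by
      rw [prod_one_add, powerset_univ]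
    rw [h3]
    split_ifs with h
    · subst h
      have h4 : ∏ i, (1 + ((y i : ℤ) : ℝ) * ((y i : ℤ) : ℝ)) = (2 : ℝ) ^ (Fintype.card I) := by
        rw [prod_congr rfl fun i _ => by rw [unit_sq (y i), one_add_one_eq_two], prod_const,
          card_univ]
      rw [h4]
      field_simp
    · obtain ⟨i, hi⟩ := Function.ne_iff.1 h
      rw [prod_eq_zero (mem_univ i) (unit_mul_ne _ _ hi), mul_zero]
  rw [sum_congr rfl fun y _ => h2 y, sum_ite_eq' univ x (fun _ => f x), if_pos (mem_univ _)]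

/-- Parseval -/
lemma parseval (f : (I → ℤˣ) → ℝ) : mean (fun x => f x ^ 2) = ∑ S, coef f S ^ 2 := by
  have h1 : ∀ x, f x ^ 2 = ∑ S, coef f S * (f x * chi S x) := by
    intro x
    rw [sq]
    nth_rewrite 2 [inversion f x]
    rw [mul_sum]
    refine sum_congr rfl fun S _ => ?_
    ring
  rw [mean, sum_congr rfl fun x _ => h1 x, sum_comm, sum_div]
  refine sum_congr rfl fun S _ => ?_
  rw [← mul_sum, coef]
  ring

lemma coef_empty (f : (I → ℤˣ) → ℝ) : coef f ∅ = mean f := by
  rw [coef, mean]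
  congr 1
  refine sum_congr rfl fun x _ => ?_
  rw [chi_empty, mul_one]

/-- flip a coordinate -/
def flip (j : I) (x : I → ℤˣ) : I → ℤˣ := Function.update x j (-(x j))

omit [Fintype I] in
lemma flip_flip (j : I) (x : I → ℤˣ) : flip j (flip j x) = x := by
  funext i
  by_cases h : i = j
  · subst h
    simp [flip]
  · simp [flip, h]

lemma chi_flip (j : I) (S : Finset I) (x : I → ℤˣ) :
    chi S (flip j x) = if j ∈ S then - chi S x else chi S x := by
  unfold chi flip
  split_ifs with h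
  · rw [← mul_prod_erase S _ h, ← mul_prod_erase S (fun i => ((x i : ℤ) : ℝ)) h]
    have h1 : ∏ i ∈ S.erase j, (((Function.update x j (-(x j)) i : ℤˣ) : ℤ) : ℝ) =
        ∏ i ∈ S.erase j, ((x i : ℤ) : ℝ) := by
      refine prod_congr rfl fun i hi => ?_
      rw [Function.update_of_ne (mem_erase.1 hi).1]
    rw [h1]
    simp
  · refine prod_congr rfl fun i hi => ?_
    rw [Function.update_of_ne (by rintro rfl; exact h hi)]

lemma coef_diff (f : (I → ℤˣ) → ℝ) (j : I) (S : Finset I) :
    coef (fun x => (f x - f (flip j x)) / 2) S = if j ∈ S then coef f S else 0 := by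
  have h1 : ∑ x, f (flip j x) * chi S x = ∑ x, f x * chi S (flip j x) := by
    refine Fintype.sum_equiv ⟨flip j, flip j, flip_flip j, flip_flip j⟩ _ _ fun x => ?_
    simp [flip_flip]
  have h2 : ∑ x, (f x - f (flip j x)) / 2 * chi S x =
      (∑ x, f x * chi S x - ∑ x, f x * chi S (flip j x)) / 2 := by
    rw [← h1, ← sum_sub_distrib, sum_div]
    refine sum_congr rfl fun x _ => ?_
    ring
  rw [coef, h2, coef]
  split_ifs with h
  · have h3 : ∑ x, f x * chi S (flip j x) = - ∑ x, f x * chi S x := by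
      rw [← sum_neg_distrib]
      refine sum_congr rfl fun x _ => ?_
      rw [chi_flip, if_pos h]
      ring
    rw [h3]
    ring
  · have h3 : ∑ x, f x * chi S (flip j x) = ∑ x, f x * chi S x := by
      refine sum_congr rfl fun x _ => ?_
      rw [chi_flip, if_neg h]
    rw [h3]
    ring

lemma inf_eq (f : (I → ℤˣ) → ℝ) (j : I) :
    inf f j = ∑ S, if j ∈ S then coef f S ^ 2 else 0 := by
  have h1 : inf f j = mean (fun x => ((f x - f (flip j x)) / 2) ^ 2) := by
    rw [inf, mean, mean]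
    congr 1
    refine sum_congr rfl fun x _ => ?_
    rcases Int.units_eq_one_or (x j) with h | h
    · have e1 : Function.update x j 1 = x := by rw [← h, Function.update_eq_self]
      have e2 : flip j x = Function.update x j (-1) := by rw [flip, h]
      rw [e1, e2]
    · have e1 : Function.update x j (-1) = x := by rw [← h, Function.update_eq_self]
      have e2 : flip j x = Function.update x j 1 := by rw [flip, h, neg_neg]
      rw [e1, e2]
      ring
  rw [h1, parseval]
  refine sum_congr rfl fun S _ => ?_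
  rw [coef_diff]
  split_ifs <;> simp

/-- Poincaré inequality -/
lemma poincare (f : (I → ℤˣ) → ℝ) : var f ≤ ∑ j, inf f j := by
  have h1 : ∑ j, inf f j = ∑ S, (S.card : ℝ) * coef f S ^ 2 := by
    rw [sum_congr rfl fun j _ => inf_eq f j, sum_comm]
    refine sum_congr rfl fun S _ => ?_
    rw [← sum_filter]
    simp
  rw [h1, var, parseval, ← coef_empty]
  have h2 : ∑ S, coef f S ^ 2 - coef f ∅ ^ 2 = ∑ S ∈ univ.erase (∅ : Finset I), coef f S ^ 2 := by
    rw [← add_sum_erase univ (fun S => coef f S ^ 2) (mem_univ ∅)]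
    ring
  rw [h2]
  calc ∑ S ∈ univ.erase (∅ : Finset I), coef f S ^ 2 ≤
      ∑ S ∈ univ.erase (∅ : Finset I), (S.card : ℝ) * coef f S ^ 2 := by
        refine sum_le_sum fun S hS => ?_
        have h3 : 1 ≤ S.card := card_pos.2 (nonempty_iff_ne_empty.2 (mem_erase.1 hS).1)
        have h4 : (1 : ℝ) ≤ S.card := by exact_mod_cast h3
        nlinarith [sq_nonneg (coef f S)]
    _ ≤ ∑ S, (S.card : ℝ) * coef f S ^ 2 :=
        sum_le_sum_of_subset_of_nonneg (erase_subset _ _) fun S _ _ => by positivity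

lemma exists_inf (f : (I → ℤˣ) → ℝ) (h : 0 < var f) :
    ∃ j, var f ≤ Fintype.card I * inf f j := by
  by_contra hcon
  push Not at hcon
  have h1 := poincare f
  have hne : (univ : Finset I).Nonempty := by
    by_contra h2
    rw [not_nonempty_iff_eq_empty] at h2
    rw [h2, sum_empty] at h1
    linarith
  have h2 : ∑ j : I, (Fintype.card I : ℝ) * inf f j < ∑ _j : I, var f :=
    sum_lt_sum_of_nonempty hne fun j _ => hcon j
  rw [← mul_sum, sum_const, nsmul_eq_mul, card_univ] at h2
  have h3 : (0 : ℝ) < Fintype.card I := by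
    rw [← card_univ]
    exact_mod_cast card_pos.2 hne
  nlinarith [lt_of_mul_lt_mul_left h2 h3.le]

/-- products of functions of disjoint sets of coordinates -/
lemma indep (g h : (I → ℤˣ) → ℝ) (J : Set I)
    (hg : ∀ x y : I → ℤˣ, (∀ i ∈ J, x i = y i) → g x = g y)
    (hh : ∀ x y : I → ℤˣ, (∀ i, i ∉ J → x i = y i) → h x = h y) :
    mean (fun x => g x * h x) = mean g * mean h := by
  classical
  let mix : (I → ℤˣ) → (I → ℤˣ) → (I → ℤˣ) := fun x y i => if i ∈ J then x i else y i
  let e : (I → ℤˣ) × (I → ℤˣ) ≃ (I → ℤˣ) × (I → ℤˣ) :=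
    { toFun := fun p => (mix p.1 p.2, mix p.2 p.1)
      invFun := fun p => (mix p.1 p.2, mix p.2 p.1)
      left_inv := by
        rintro ⟨x, y⟩
        refine Prod.ext ?_ ?_ <;>
        · funext i
          by_cases hi : i ∈ J <;> simp [mix, hi]
      right_inv := by
        rintro ⟨x, y⟩
        refine Prod.ext ?_ ?_ <;>
        · funext i
          by_cases hi : i ∈ J <;> simp [mix, hi] }
  have h1 : (∑ x, g x) * ∑ y, h y = ∑ p : (I → ℤˣ) × (I → ℤˣ), g p.1 * h p.1 := by
    rw [sum_mul_sum, ← univ_product_univ, ← sum_product']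
    refine Fintype.sum_equiv e _ _ fun p => ?_
    have e1 : g (mix p.1 p.2) = g p.1 := hg _ _ fun i hi => by simp [mix, hi]
    have e2 : h (mix p.1 p.2) = h p.2 := hh _ _ fun i hi => by simp [mix, hi]
    change g p.1 * h p.2 = g (mix p.1 p.2) * h (mix p.1 p.2)
    rw [e1, e2]
  have h2 : ∑ p : (I → ℤˣ) × (I → ℤˣ), g p.1 * h p.1 =
      (2 : ℝ) ^ (Fintype.card I) * ∑ x, g x * h x := by
    rw [← univ_product_univ, sum_product, ← card_cube, mul_sum]
    refine sum_congr rfl fun x _ => ?_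
    change ∑ _y : I → ℤˣ, g x * h x = _
    rw [sum_const, nsmul_eq_mul, card_univ]
  rw [mean, mean, mean, div_mul_div_comm, h1, h2]
  field_simp

end Pool.Agent.J4H91.AA
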