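import Pool.Agent.J4H91.AA.Main

/-!
# The number of relabelled objects is polynomial in the degree
-/

set_option autoImplicit false

namespace Pool.Agent.J4H91.AA

open Finset Polynomial

variable {V I : Type} [Fintype V] [DecidableEq V] [Fintype I] [DecidableEq I] {r : ℕ}

/-- the average of `f` over maps with range in a random set of `R` elements -/
noncomputable def avg (A : Relabel V I r) (f : (I → ℤˣ) → ℝ) {R : ℕ} (ι : Fin R → V)
    (x : I → ℤˣ) : ℝ :=
  (∑ ψ : V → Fin R, ∑ σ : Equiv.Perm V, f (fun i => x (A.act (fun v => σ (ι (ψ v))) i))) /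
    ((R : ℝ) ^ (Fintype.card V) * Fintype.card (Equiv.Perm V))

lemma approx (A : Relabel V I r) (f : (I → ℤˣ) → ℝ) (hf : ∀ x, |f x| ≤ 1)
    (hinv : ∀ (σ : Equiv.Perm V) (x : I → ℤˣ), f (fun i => x (A.act σ i)) = f x) (d : ℕ)
    (hdeg : ∀ S : Finset I, d < S.card → ∑ x, f x * chi S x = 0) (hr : 1 ≤ r) (hd : 1 ≤ d)
    {R : ℕ} (ι : Fin R → V) (hι : Function.Injective ι) (hR : 8 * (r * d) ^ 2 ≤ R)
    (hN : 64 * (r * d) ^ 4 ≤ Fintype.card V) (x : I → ℤˣ) :
    |f x - avg A f ι x| ≤ 64 * ((r * d : ℕ) : ℝ) ^ 4 / R := by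
  classical
  have hP0 : (0 : ℝ) < Fintype.card (Equiv.Perm V) := by exact_mod_cast Fintype.card_pos
  -- the expansion
  set F : Finset (Finset I) := univ.filter (fun S => S.card ≤ d) with hF
  have hexp : ∀ y : I → ℤˣ, f y = ∑ S ∈ F, coef f S * chi S y := by
    intro y
    rw [inversion f y, hF, sum_filter]
    refine sum_congr rfl fun S _ => ?_
    split_ifs with h
    · rfl
    · rw [coef, hdeg S (by omega), zero_div, zero_mul]
  -- the polynomials
  have hpat : ∀ S : Finset I, ∃ P : ℝ[X], P.natDegree ≤ (S.biUnion A.supp).card ∧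
      P.eval 0 = ∑ σ : Equiv.Perm V, chi S (fun i => x (A.act σ i)) ∧
      ∀ (R : ℕ) (ι : Fin R → V), 1 ≤ R → Function.Injective ι →
        P.eval (1 / (R : ℝ)) * (R : ℝ) ^ (Fintype.card V) =
          ∑ ψ : V → Fin R, ∑ σ : Equiv.Perm V,
            chi S (fun i => x (A.act (fun v => σ (ι (ψ v))) i)) := by
    intro S
    refine patterns (S.biUnion A.supp) (fun θ => chi S (fun i => x (A.act θ i))) ?_
    intro θ θ' h
    unfold chi
    refine prod_congr rfl fun i hi => ?_
    change ((x (A.act θ i) : ℤ) : ℝ) = ((x (A.act θ' i) : ℤ) : ℝ)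
    rw [A.congr θ θ' i fun v hv => h v (mem_biUnion.2 ⟨i, hi, hv⟩)]
  choose P hPdeg hP0' hPR using hpat
  set Q : ℝ[X] := C (1 / (Fintype.card (Equiv.Perm V) : ℝ)) * ∑ S ∈ F, C (coef f S) * P S with hQ
  have hQdeg : Q.natDegree ≤ r * d := by
    rw [hQ]
    refine (natDegree_C_mul_le _ _).trans ?_
    refine natDegree_sum_le_of_forall_le _ _ fun S hS => ?_
    refine (natDegree_C_mul_le _ _).trans ((hPdeg S).trans ?_)
    refine (card_biUnion_le).trans ?_
    calc ∑ i ∈ S, (A.supp i).card ≤ ∑ _i ∈ S, r := sum_le_sum fun i _ => A.card_supp i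
      _ = S.card * r := by rw [sum_const, smul_eq_mul]
      _ ≤ d * r := Nat.mul_le_mul_right _ (mem_filter.1 hS).2
      _ = r * d := mul_comm _ _
  have hQ0 : Q.eval 0 = f x := by
    rw [hQ, eval_mul, eval_C, eval_finsetSum]
    have h1 : ∀ S ∈ F, (C (coef f S) * P S).eval 0 =
        ∑ σ : Equiv.Perm V, coef f S * chi S (fun i => x (A.act σ i)) := by
      intro S _
      rw [eval_mul, eval_C, hP0', mul_sum]
    rw [sum_congr rfl h1, sum_comm]
    have h2 : ∀ σ : Equiv.Perm V, ∑ S ∈ F, coef f S * chi S (fun i => x (A.act σ i)) = f x := by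
      intro σ
      rw [← hexp, hinv]
    rw [sum_congr rfl fun σ _ => h2 σ, sum_const, nsmul_eq_mul, card_univ]
    field_simp
  have hQR : ∀ (R : ℕ) (ι : Fin R → V), 1 ≤ R → Function.Injective ι →
      Q.eval (1 / (R : ℝ)) = avg A f ι x := by
    intro R ι hR hι
    have hR' : (0 : ℝ) < R := by exact_mod_cast hR
    have h1 : (∑ S ∈ F, C (coef f S) * P S).eval (1 / (R : ℝ)) * (R : ℝ) ^ (Fintype.card V) =
        ∑ ψ : V → Fin R, ∑ σ : Equiv.Perm V,
          f (fun i => x (A.act (fun v => σ (ι (ψ v))) i)) := by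
      rw [eval_finsetSum, sum_mul]
      have h2 : ∀ S ∈ F, (C (coef f S) * P S).eval (1 / (R : ℝ)) *
          (R : ℝ) ^ (Fintype.card V) = ∑ ψ : V → Fin R, ∑ σ : Equiv.Perm V,
            coef f S * chi S (fun i => x (A.act (fun v => σ (ι (ψ v))) i)) := by
        intro S _
        rw [eval_mul, eval_C, mul_assoc, hPR S R ι hR hι, mul_sum]
        refine sum_congr rfl fun ψ _ => ?_
        rw [mul_sum]
      rw [sum_congr rfl h2, sum_comm]
      refine sum_congr rfl fun ψ _ => ?_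
      rw [sum_comm]
      refine sum_congr rfl fun σ _ => ?_
      rw [← hexp]
    rw [avg, ← h1, hQ, eval_mul, eval_C]
    field_simp
  have havg : ∀ (R : ℕ) (ι : Fin R → V), 1 ≤ R → |avg A f ι x| ≤ 1 := by
    intro R ι hR
    have hR' : (0 : ℝ) < R := by exact_mod_cast hR
    rw [avg, abs_div, abs_of_pos (show (0 : ℝ) < (R : ℝ) ^ (Fintype.card V) *
      Fintype.card (Equiv.Perm V) by positivity), div_le_one (by positivity)]
    calc |∑ ψ : V → Fin R, ∑ σ : Equiv.Perm V,
          f (fun i => x (A.act (fun v => σ (ι (ψ v))) i))| ≤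
        ∑ ψ : V → Fin R, ∑ σ : Equiv.Perm V,
          |f (fun i => x (A.act (fun v => σ (ι (ψ v))) i))| :=
          (abs_sum_le_sum_abs _ _).trans (sum_le_sum fun ψ _ => abs_sum_le_sum_abs _ _)
      _ ≤ ∑ _ψ : V → Fin R, ∑ _σ : Equiv.Perm V, (1 : ℝ) :=
          sum_le_sum fun ψ _ => sum_le_sum fun σ _ => hf _
      _ = _ := by
          simp only [sum_const, nsmul_eq_mul, card_univ, mul_one, Fintype.card_fun,
            Fintype.card_fin]
          push_cast
          ring
  have hRN : R ≤ Fintype.card V := by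
    have := Fintype.card_le_of_injective ι hι
    rwa [Fintype.card_fin] at this
  have hrd : 1 ≤ r * d := Nat.mul_pos hr hd
  have hR1 : 1 ≤ R := by
    have : 0 < 8 * (r * d) ^ 2 := by positivity
    omega
  have hfin := small_range hrd hN hQdeg (by rw [hQ0]; exact hf x) (fun R' hR' hR'N => by
    obtain ⟨ι'⟩ : Nonempty (Fin R' ↪ V) := by
      rw [Function.Embedding.nonempty_iff_card_le, Fintype.card_fin]
      exact hR'N
    rw [hQR R' ι' hR' ι'.injective]
    exact havg R' ι' hR') R hR hRN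
  rw [hQ0, hQR R ι hR1 hι, abs_sub_comm] at hfin
  exact hfin

/-- the variance of the average -/
lemma part_avg_le (A : Relabel V I r) (f : (I → ℤˣ) → ℝ) (hf : ∀ x, |f x| ≤ 1)
    {R : ℕ} (ι : Fin R → V) (hR : 1 ≤ R) (hV : 1 ≤ Fintype.card V) :
    part (univ.filter fun i => (A.supp i).Nonempty) (avg A f ι) ≤
      (R : ℝ) ^ 2 / Fintype.card V := by
  classical
  have hR' : (0 : ℝ) < R := by exact_mod_cast hR
  have hV' : (0 : ℝ) < Fintype.card V := by exact_mod_cast hV
  have hP0 : (0 : ℝ) < Fintype.card (Equiv.Perm V) := by exact_mod_cast Fintype.card_pos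
  set g : Equiv.Perm V → (I → ℤˣ) → ℝ := fun σ x =>
    (∑ ψ : V → Fin R, f (fun i => x (A.act (fun v => σ (ι (ψ v))) i))) /
      (R : ℝ) ^ (Fintype.card V) with hg
  have hg1 : ∀ σ x, |g σ x| ≤ 1 := by
    intro σ x
    rw [hg]
    simp only
    rw [abs_div, abs_of_pos (show (0 : ℝ) < (R : ℝ) ^ (Fintype.card V) by positivity),
      div_le_one (by positivity)]
    calc |∑ ψ : V → Fin R, f (fun i => x (A.act (fun v => σ (ι (ψ v))) i))| ≤
        ∑ ψ : V → Fin R, |f (fun i => x (A.act (fun v => σ (ι (ψ v))) i))| :=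
          abs_sum_le_sum_abs _ _
      _ ≤ ∑ _ψ : V → Fin R, (1 : ℝ) := sum_le_sum fun ψ _ => hf _
      _ = _ := by
          simp only [sum_const, nsmul_eq_mul, card_univ, mul_one, Fintype.card_fun,
            Fintype.card_fin]
          push_cast
          ring
  have heq : avg A f ι = fun x => (∑ σ, g σ x) / Fintype.card (Equiv.Perm V) := by
    funext x
    rw [avg, hg]
    simp only
    rw [← sum_div, sum_comm]
    field_simp
  rw [heq]
  have hinvar : ∀ (σ : Equiv.Perm V) (j : I),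
      (∀ (ψ : V → Fin R) (i : I), A.act (fun v => σ (ι (ψ v))) i ≠ j) →
      ∀ x, g σ (flip j x) = g σ x := by
    intro σ j hj x
    rw [hg]
    simp only
    congr 1
    refine sum_congr rfl fun ψ _ => ?_
    congr 1
    funext i
    rw [flip, Function.update_of_ne (hj ψ i)]
  have h1 := part_avg (univ.filter fun i => (A.supp i).Nonempty) g hg1
    (fun σ τ => ∃ a b : Fin R, σ (ι a) = τ (ι b)) (by
    intro σ τ hnot j hj
    push Not at hnot
    rw [mem_filter] at hj
    by_contra hcon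
    push Not at hcon
    obtain ⟨⟨x, hx⟩, ⟨y, hy⟩⟩ := hcon
    have e1 : ∃ (ψ : V → Fin R) (i : I), A.act (fun v => σ (ι (ψ v))) i = j := by
      by_contra hcon
      push Not at hcon
      exact hx (hinvar σ j hcon x)
    have e2 : ∃ (ψ : V → Fin R) (i : I), A.act (fun v => τ (ι (ψ v))) i = j := by
      by_contra hcon
      push Not at hcon
      exact hy (hinvar τ j hcon y)
    obtain ⟨ψ, i, hi⟩ := e1
    obtain ⟨ψ', i', hi'⟩ := e2
    have n1 : (A.supp i).Nonempty := by
      rw [nonempty_iff_ne_empty]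
      intro h0
      rw [A.fix _ i h0] at hi
      rw [hi] at h0
      exact hj.2.ne_empty h0
    have n2 : (A.supp i').Nonempty := by
      rw [nonempty_iff_ne_empty]
      intro h0
      rw [A.fix _ i' h0] at hi'
      rw [hi'] at h0
      exact hj.2.ne_empty h0
    exact A.ne (fun v => σ (ι (ψ v))) (fun v => τ (ι (ψ' v))) i i' n1 n2
      (fun v w => hnot _ _) (hi.trans hi'.symm))
  refine h1.trans ?_
  have h2 := count_bad (V := V) ι
  have h3 : (Fintype.card V : ℝ) * ((univ.filter (fun p : Equiv.Perm V × Equiv.Perm V =>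
      ∃ a b : Fin R, p.1 (ι a) = p.2 (ι b))).card : ℝ) ≤
      (R : ℝ) ^ 2 * (Fintype.card (Equiv.Perm V) : ℝ) ^ 2 := by exact_mod_cast h2
  rw [div_le_div_iff₀ (by positivity) hV']
  nlinarith

/-- **the general theorem** -/
theorem card_le (A : Relabel V I r) (f : (I → ℤˣ) → ℝ) (hf : ∀ x, |f x| ≤ 1)
    (hinv : ∀ (σ : Equiv.Perm V) (x : I → ℤˣ), f (fun i => x (A.act σ i)) = f x) (d : ℕ)
    (hdeg : ∀ S : Finset I, d < S.card → ∑ x, f x * chi S x = 0) (hr : 1 ≤ r) (hd : 1 ≤ d) :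
    (Fintype.card V : ℝ) * part (univ.filter fun i => (A.supp i).Nonempty) f ^ 2 ≤
      66564 * ((r * d : ℕ) : ℝ) ^ 8 := by
  classical
  have hrd : 1 ≤ r * d := Nat.mul_pos hr hd
  set t : ℝ := ((r * d : ℕ) : ℝ) with ht
  have ht1 : 1 ≤ t := by
    rw [ht]
    exact_mod_cast hrd
  have ht4 : 1 ≤ t ^ 4 := one_le_pow₀ ht1
  have ht8 : t ^ 8 = t ^ 4 * t ^ 4 := by ring
  set N : ℝ := ((Fintype.card V : ℕ) : ℝ) with hN
  have hN0 : 0 ≤ N := Nat.cast_nonneg _
  set q : Finset I := univ.filter fun i => (A.supp i).Nonempty with hq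
  have hv0 := part_nonneg q f
  have hv1 : part q f ≤ 1 := by
    have := part_le q f 1 hf
    rwa [one_pow] at this
  set v := part q f with hv
  rcases hv0.eq_or_lt with h0 | hv0
  · rw [← h0]
    have : 0 ≤ 66564 * t ^ 8 := by positivity
    simpa using this
  set s := √v with hs
  have hs0 : 0 < s := Real.sqrt_pos.2 hv0
  have hs2 : s ^ 2 = v := Real.sq_sqrt hv0.le
  have hs1 : s ≤ 1 := by
    rw [hs]
    exact Real.sqrt_le_one.2 hv1
  have hts : 1 ≤ t ^ 4 / s := by
    rw [le_div_iff₀ hs0]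
    linarith
  set R : ℕ := ⌈128 * t ^ 4 / s⌉₊ with hR
  have hR1 : 128 * t ^ 4 / s ≤ R := Nat.le_ceil _
  have hR2 : (R : ℝ) ≤ 129 * (t ^ 4 / s) := by
    have h1 := (Nat.ceil_lt_add_one (show 0 ≤ 128 * t ^ 4 / s by positivity)).le
    have h2 : 128 * t ^ 4 / s = 128 * (t ^ 4 / s) := by ring
    rw [← hR, h2] at h1
    linarith
  have hRt : 128 * t ^ 4 ≤ R := by
    refine le_trans ?_ hR1
    rw [le_div_iff₀ hs0]
    nlinarith
  have hRpos : (0 : ℝ) < R := by nlinarith
  rcases lt_or_ge (Fintype.card V) (64 * (r * d) ^ 4) with hc | hc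
  · have h1 : N < 64 * t ^ 4 := by
      rw [hN, ht]
      exact_mod_cast hc
    have h2 : v ^ 2 ≤ 1 := pow_le_one₀ hv0.le hv1
    nlinarith [mul_nonneg hN0 (sub_nonneg.2 h2)]
  · rcases lt_or_ge (Fintype.card V) R with hc2 | hc2
    · have h1 : N ≤ 129 * (t ^ 4 / s) := by
        refine le_trans ?_ hR2
        rw [hN]
        exact_mod_cast hc2.le
      have h2 : N * v ^ 2 ≤ 129 * (t ^ 4 / s) * v ^ 2 :=
        mul_le_mul_of_nonneg_right h1 (by positivity)
      have h3 : 129 * (t ^ 4 / s) * v ^ 2 = 129 * t ^ 4 * s ^ 3 := by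
        rw [← hs2]
        field_simp
      have h4 : s ^ 3 ≤ 1 := pow_le_one₀ hs0.le hs1
      have h5 : 129 * t ^ 4 * s ^ 3 ≤ 129 * t ^ 4 * 1 :=
        mul_le_mul_of_nonneg_left h4 (by positivity)
      nlinarith
    · obtain ⟨ι⟩ : Nonempty (Fin R ↪ V) := by
        rw [Function.Embedding.nonempty_iff_card_le, Fintype.card_fin]
        exact hc2
      have hR8 : 8 * (r * d) ^ 2 ≤ R := by
        have h1 : 8 * t ^ 2 ≤ R := by
          have : t ^ 2 ≤ t ^ 4 := pow_le_pow_right₀ ht1 (by norm_num)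
          linarith
        rw [ht] at h1
        exact_mod_cast h1
      have hRN1 : 1 ≤ R := by
        have : 0 < 8 * (r * d) ^ 2 := by positivity
        omega
      have hV1 : 1 ≤ Fintype.card V := hRN1.trans hc2
      have hNpos : 0 < N := by
        rw [hN]
        exact_mod_cast hV1
      have h1 := part_add q f (avg A f ι)
      have h1' := part_le q (fun x => f x - avg A f ι x) (64 * t ^ 4 / R)
        (fun x => approx A f hf hinv d hdeg hr hd ι ι.injective hR8 hc x)
      have h2 := part_avg_le A f hf ι hRN1 hV1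
      have h3 : 64 * t ^ 4 / R ≤ s / 2 := by
        rw [div_le_iff₀ hRpos]
        rw [div_le_iff₀ hs0] at hR1
        linarith
      have h4 : (64 * t ^ 4 / R) ^ 2 ≤ (s / 2) ^ 2 := pow_le_pow_left₀ (by positivity) h3 2
      have h5 : (s / 2) ^ 2 = v / 4 := by rw [div_pow, hs2]; norm_num
      have h6 : v ≤ 4 * (R : ℝ) ^ 2 / N := by
        have e1 : 4 * (R : ℝ) ^ 2 / N = 4 * ((R : ℝ) ^ 2 / N) := by ring
        rw [e1]
        linarith
      rw [le_div_iff₀ hNpos] at h6
      have h7 : (R : ℝ) ^ 2 ≤ (129 * (t ^ 4 / s)) ^ 2 := pow_le_pow_left₀ hRpos.le hR2 2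
      have h8 : (129 * (t ^ 4 / s)) ^ 2 * v = 16641 * t ^ 8 := by
        rw [← hs2]
        field_simp
        ring
      have h9 : N * v ^ 2 = (v * N) * v := by ring
      rw [h9]
      calc (v * N) * v ≤ (4 * (R : ℝ) ^ 2) * v := mul_le_mul_of_nonneg_right h6 hv0.le
        _ ≤ (4 * (129 * (t ^ 4 / s)) ^ 2) * v :=
          mul_le_mul_of_nonneg_right (by linarith) hv0.le
        _ = 4 * ((129 * (t ^ 4 / s)) ^ 2 * v) := by ring
        _ = 66564 * t ^ 8 := by rw [h8]; ring

end Pool.Agent.J4H91.AA
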