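import Mathlib.Algebra.Polynomial.BigOperators
import Mathlib.Algebra.Polynomial.Eval.Degree
import Mathlib.Data.Fintype.CardEmbedding
import Mathlib.Data.Real.Basic
import Mathlib.Data.Setoid.Basic
import Mathlib.GroupTheory.Perm.Basic
import Mathlib.Logic.Equiv.Fintype
import Mathlib.Tactic

/-!
# Patterns of coincidences of a random map with small range
-/

set_option autoImplicit false

namespace Pool.Agent.J4H91.AA

open Finset Polynomial

variable {V : Type} [Fintype V] [DecidableEq V]

omit [DecidableEq V] in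
/-- two maps with the same kernel differ by a permutation -/
lemma exists_perm {T : Type} (g h : T → V) (hgh : ∀ a b, g a = g b ↔ h a = h b) :
    ∃ σ : Equiv.Perm V, ∀ a, g a = σ (h a) := by
  classical
  let e : {v // v ∈ Set.range h} ≃ {v // v ∈ Set.range g} :=
    { toFun := fun v => ⟨g v.2.choose, ⟨_, rfl⟩⟩
      invFun := fun v => ⟨h v.2.choose, ⟨_, rfl⟩⟩
      left_inv := by
        intro v
        apply Subtype.ext
        have h1 : ∀ w : {v // v ∈ Set.range g}, g w.2.choose = w.1 := fun w => w.2.choose_spec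
        have h2 := h1 ⟨g v.2.choose, ⟨_, rfl⟩⟩
        have h3 := (hgh _ _).1 h2
        change h _ = v.1
        rw [h3]
        exact v.2.choose_spec
      right_inv := by
        intro v
        apply Subtype.ext
        have h1 : ∀ w : {v // v ∈ Set.range h}, h w.2.choose = w.1 := fun w => w.2.choose_spec
        have h2 := h1 ⟨h v.2.choose, ⟨_, rfl⟩⟩
        have h3 := (hgh _ _).2 h2
        change g _ = v.1
        rw [h3]
        exact v.2.choose_spec }
  refine ⟨e.extendSubtype, fun a => ?_⟩
  rw [e.extendSubtype_apply_of_mem _ ⟨a, rfl⟩]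
  have h1 : ∀ w : {v // v ∈ Set.range h}, h w.2.choose = w.1 := fun w => w.2.choose_spec
  have h2 := h1 ⟨h a, ⟨a, rfl⟩⟩
  exact ((hgh _ _).2 h2).symm

lemma sum_perm_eq (T : Finset V) (H : (V → V) → ℝ)
    (hH : ∀ θ θ' : V → V, (∀ v ∈ T, θ v = θ' v) → H θ = H θ') (ψ ψ' : V → V)
    (h : ∀ a ∈ T, ∀ b ∈ T, ψ a = ψ b ↔ ψ' a = ψ' b) :
    ∑ σ : Equiv.Perm V, H (fun v => σ (ψ v)) = ∑ σ : Equiv.Perm V, H (fun v => σ (ψ' v)) := by
  obtain ⟨σ₀, hσ₀⟩ := exists_perm (fun a : T => ψ a) (fun a : T => ψ' a)
    (fun a b => h a a.2 b b.2)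
  have h1 : ∀ σ : Equiv.Perm V, H (fun v => σ (ψ v)) = H (fun v => (σ * σ₀) (ψ' v)) := by
    intro σ
    apply hH
    intro v hv
    rw [Equiv.Perm.mul_apply, ← hσ₀ ⟨v, hv⟩]
  rw [sum_congr rfl fun σ _ => h1 σ]
  exact Fintype.sum_equiv (Equiv.mulRight σ₀) _ _ fun _ => rfl

/-- representatives -/
noncomputable def rep (T : Finset V) (s : Setoid T) (v : V) : V :=
  if h : v ∈ T then ((Quotient.out (Quotient.mk s ⟨v, h⟩) : T) : V) else v

omit [Fintype V] in
lemma rep_eq_iff (T : Finset V) (s : Setoid T) (a b : V) (ha : a ∈ T) (hb : b ∈ T) :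
    rep T s a = rep T s b ↔ s ⟨a, ha⟩ ⟨b, hb⟩ := by
  rw [rep, rep, dif_pos ha, dif_pos hb]
  constructor
  · intro h
    have h1 : Quotient.mk s ⟨a, ha⟩ = Quotient.mk s ⟨b, hb⟩ := by
      rw [← Quotient.out_eq (Quotient.mk s ⟨a, ha⟩), ← Quotient.out_eq (Quotient.mk s ⟨b, hb⟩),
        Subtype.ext h]
    exact Quotient.exact h1
  · intro h
    rw [Quotient.sound h]

noncomputable instance (T : Finset V) : Fintype (Setoid T) :=
  Fintype.ofInjective (fun s : Setoid T => fun p : T × T => (s p.1 p.2 : Prop)) (by
    intro s s' h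
    ext a b
    exact iff_of_eq (congrFun h (a, b)))

noncomputable instance (T : Finset V) (s : Setoid T) : Fintype (Quotient s) :=
  Fintype.ofFinite _

/-- the number of the maps with given kernel -/
lemma card_ker (T : Finset V) (s : Setoid T) (R : ℕ) :
    Nat.card {ψ : V → Fin R // Setoid.ker (fun a : T => ψ a) = s} =
      R.descFactorial (Fintype.card (Quotient s)) * R ^ (Fintype.card V - T.card) := by
  classical
  let e : {ψ : V → Fin R // Setoid.ker (fun a : T => ψ a) = s} ≃
      (Quotient s ↪ Fin R) × ({v // v ∉ T} → Fin R) :=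
    { toFun := fun ψ => (⟨Quotient.lift (fun a : T => ψ.1 a) (by
          intro a b hab
          have : Setoid.ker (fun a : T => ψ.1 a) a b := by
            rw [ψ.2]
            exact hab
          exact this), by
          intro x y
          refine Quotient.inductionOn₂ x y fun a b hab => ?_
          apply Quotient.sound
          have h1 : Setoid.ker (fun a : T => ψ.1 a) a b := hab
          rw [ψ.2] at h1
          exact h1⟩, fun v => ψ.1 v)
      invFun := fun p => ⟨fun v => if h : v ∈ T then p.1 (Quotient.mk s ⟨v, h⟩) else p.2 ⟨v, h⟩, by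
        ext a b
        rw [Setoid.ker_def]
        simp only [a.2, b.2, dif_pos, EmbeddingLike.apply_eq_iff_eq]
        exact ⟨fun h => Quotient.exact h, fun h => Quotient.sound h⟩⟩
      left_inv := by
        intro ψ
        apply Subtype.ext
        funext v
        by_cases hv : v ∈ T
        · simp only [hv, ↓reduceDIte]
          rfl
        · simp only [hv, ↓reduceDIte]
      right_inv := by
        rintro ⟨p, g⟩
        refine Prod.ext ?_ ?_
        · ext x
          refine Quotient.inductionOn x fun a => ?_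
          change ((if h : (a : V) ∈ T then p (Quotient.mk s ⟨a, h⟩) else g ⟨a, h⟩ : Fin R) : ℕ) = _
          rw [dif_pos a.2]
        · funext v
          simp [v.2] }
  rw [Nat.card_congr e, Nat.card_eq_fintype_card, Fintype.card_prod, Fintype.card_embedding_eq, Fintype.card_fun,
    Fintype.card_fin]
  congr 2
  rw [Fintype.card_subtype_compl]
  simp

omit [DecidableEq V] in
lemma quot_card_le (T : Finset V) (s : Setoid T) : Fintype.card (Quotient s) ≤ T.card := by
  classical
  have := Fintype.card_le_of_surjective (Quotient.mk s) Quotient.mk_surjective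
  simpa using this

lemma eq_bot_of_card (T : Finset V) (s : Setoid T) (h : T.card ≤ Fintype.card (Quotient s)) :
    s = ⊥ := by
  classical
  have h1 : Function.Bijective (Quotient.mk s) := by
    rw [Fintype.bijective_iff_surjective_and_card]
    refine ⟨Quotient.mk_surjective, ?_⟩
    have := quot_card_le T s
    simp only [Fintype.card_coe]
    omega
  ext a b
  constructor
  · intro hab
    exact h1.1 (Quotient.sound hab)
  · intro hab
    have hab' : a = b := hab
    rw [hab']

lemma cast_desc (R l : ℕ) :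
    ((R.descFactorial l : ℕ) : ℝ) = ∏ i ∈ range l, ((R : ℝ) - i) := by
  induction l with
  | zero => simp
  | succ l ih =>
    rw [Nat.descFactorial_succ, prod_range_succ, ← ih]
    rcases le_or_gt l R with h | h
    · push_cast [Nat.cast_sub h]
      ring
    · rw [Nat.descFactorial_eq_zero_iff_lt.2 h]
      simp

/-- **the average over maps with small range is a polynomial** -/
theorem patterns (T : Finset V) (H : (V → V) → ℝ)
    (hH : ∀ θ θ' : V → V, (∀ v ∈ T, θ v = θ' v) → H θ = H θ') :
    ∃ P : ℝ[X], P.natDegree ≤ T.card ∧ P.eval 0 = ∑ σ : Equiv.Perm V, H σ ∧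
      ∀ (R : ℕ) (ι : Fin R → V), 1 ≤ R → Function.Injective ι →
        P.eval (1 / (R : ℝ)) * (R : ℝ) ^ (Fintype.card V) =
          ∑ ψ : V → Fin R, ∑ σ : Equiv.Perm V, H (fun v => σ (ι (ψ v))) := by
  classical
  set K : Setoid T → ℝ := fun s => ∑ σ : Equiv.Perm V, H (fun v => σ (rep T s v)) with hK
  set l : Setoid T → ℕ := fun s => Fintype.card (Quotient s) with hl
  have hlT : ∀ s, l s ≤ T.card := fun s => quot_card_le T s
  have hTN : T.card ≤ Fintype.card V := card_le_univ T
  refine ⟨∑ s : Setoid T, C (K s) * (X ^ (T.card - l s) * ∏ i ∈ range (l s), (1 - C (i : ℝ) * X)),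
    ?_, ?_, ?_⟩
  · refine natDegree_sum_le_of_forall_le _ _ fun s _ => ?_
    refine (natDegree_C_mul_le _ _).trans ?_
    refine natDegree_mul_le.trans ?_
    have h1 : (∏ i ∈ range (l s), (1 - C (i : ℝ) * X : ℝ[X])).natDegree ≤ l s := by
      refine (natDegree_prod_le _ _).trans ?_
      calc ∑ i ∈ range (l s), (1 - C (i : ℝ) * X : ℝ[X]).natDegree ≤ ∑ _i ∈ range (l s), 1 := by
            refine sum_le_sum fun i _ => ?_
            refine (natDegree_sub_le _ _).trans ?_
            rw [natDegree_one]
            exact max_le (by norm_num) ((natDegree_C_mul_le _ _).trans natDegree_X_le)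
        _ = l s := by simp
    have h2 : (X ^ (T.card - l s) : ℝ[X]).natDegree ≤ T.card - l s := natDegree_X_pow_le _
    have := hlT s
    omega
  · rw [eval_finsetSum]
    have h1 : ∀ s : Setoid T, (C (K s) * (X ^ (T.card - l s) *
        ∏ i ∈ range (l s), (1 - C (i : ℝ) * X)) : ℝ[X]).eval 0 = if s = ⊥ then K ⊥ else 0 := by
      intro s
      rw [eval_mul, eval_C, eval_mul, eval_pow, eval_X, eval_prod]
      have h2 : ∏ i ∈ range (l s), (1 - C (i : ℝ) * X : ℝ[X]).eval 0 = 1 := by
        refine prod_eq_one fun i _ => ?_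
        simp
      rw [h2, mul_one]
      split_ifs with hs
      · have h3 : T.card - l s = 0 := by
          have h4 : l s = T.card := by
            rw [hl, hs]
            have h5 := Fintype.card_of_bijective (f := (Quotient.mk (⊥ : Setoid T)))
              ⟨fun a b hab => Quotient.exact hab, Quotient.mk_surjective⟩
            simp only [Fintype.card_coe] at h5
            exact h5.symm
          omega
        rw [h3, pow_zero, mul_one, hs]
      · have h3 : T.card - l s ≠ 0 := by
          intro h4
          apply hs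
          have h5 : T.card ≤ l s := by omega
          exact eq_bot_of_card T s h5
        rw [zero_pow h3, mul_zero]
    rw [sum_congr rfl fun s _ => h1 s, sum_ite_eq' univ ⊥ (fun _ => K ⊥), if_pos (mem_univ _)]
    rw [hK]
    refine sum_congr rfl fun σ _ => ?_
    apply hH
    intro v hv
    have h2 : rep T ⊥ v = v := by
      rw [rep, dif_pos hv]
      have h3 : (Quotient.mk (⊥ : Setoid T) (Quotient.out (Quotient.mk (⊥ : Setoid T) ⟨v, hv⟩))) =
          Quotient.mk (⊥ : Setoid T) ⟨v, hv⟩ := Quotient.out_eq _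
      have h4 : (Quotient.out (Quotient.mk (⊥ : Setoid T) ⟨v, hv⟩) : T) = ⟨v, hv⟩ :=
        Quotient.exact h3
      rw [h4]
    rw [h2]
  · intro R ι hR hι
    have hR' : (0 : ℝ) < R := by exact_mod_cast hR
    have h1 : ∀ ψ : V → Fin R, ∑ σ : Equiv.Perm V, H (fun v => σ (ι (ψ v))) =
        K (Setoid.ker (fun a : T => ψ a)) := by
      intro ψ
      rw [hK]
      refine sum_perm_eq T H hH (fun v => ι (ψ v)) _ ?_
      intro a ha b hb
      rw [rep_eq_iff T _ a b ha hb, Setoid.ker_def]
      exact hι.eq_iff
    rw [sum_congr rfl fun ψ _ => h1 ψ]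
    rw [← sum_fiberwise univ (fun ψ : V → Fin R => Setoid.ker (fun a : T => ψ a))]
    rw [eval_finsetSum, sum_mul]
    refine sum_congr rfl fun s _ => ?_
    have h2 : ∑ ψ ∈ univ.filter (fun ψ : V → Fin R => Setoid.ker (fun a : T => ψ a) = s),
        K (Setoid.ker (fun a : T => ψ a)) =
        ((univ.filter (fun ψ : V → Fin R => Setoid.ker (fun a : T => ψ a) = s)).card : ℝ) *
          K s := by
      rw [sum_congr rfl fun ψ hψ => by rw [(mem_filter.1 hψ).2], sum_const, nsmul_eq_mul]
    have hcard : (univ.filter (fun ψ : V → Fin R => Setoid.ker (fun a : T => ψ a) = s)).card =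
        R.descFactorial (l s) * R ^ (Fintype.card V - T.card) := by
      have h8 := card_ker T s R
      rw [Nat.card_eq_fintype_card, Fintype.card_subtype] at h8
      exact h8
    rw [h2, hcard]
    push_cast
    rw [cast_desc, eval_mul, eval_C, eval_mul, eval_pow, eval_X, eval_prod]
    have h3 : ∏ i ∈ range (l s), (1 - C (i : ℝ) * X : ℝ[X]).eval (1 / (R : ℝ)) =
        (∏ i ∈ range (l s), ((R : ℝ) - i)) / (R : ℝ) ^ (l s) := by
      have h4 : ∀ i ∈ range (l s), (1 - C (i : ℝ) * X : ℝ[X]).eval (1 / (R : ℝ)) =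
          ((R : ℝ) - i) / R := by
        intro i _
        simp
        field_simp
      rw [prod_congr rfl h4, prod_div_distrib, prod_const, card_range]
    rw [h3]
    have h5 : (R : ℝ) ^ (Fintype.card V) =
        (R : ℝ) ^ (T.card - l s) * (R : ℝ) ^ (l s) * (R : ℝ) ^ (Fintype.card V - T.card) := by
      rw [← pow_add, ← pow_add]
      congr 1
      have := hlT s
      omega
    rw [h5]
    have h6 : (0 : ℝ) < (R : ℝ) ^ (T.card - l s) := by positivity
    have h7 : (0 : ℝ) < (R : ℝ) ^ (l s) := by positivity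
    rw [one_div, inv_pow]
    field_simp

end Pool.Agent.J4H91.AA
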