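import Pool.Agent.J4H91.AA.Markov
import Pool.Agent.J4H91.AA.Pattern
import Pool.Agent.J4H91.AA.Cube

/-!
# Bounded functions of low degree invariant under relabelling are concentrated
-/

set_option autoImplicit false

namespace Pool.Agent.J4H91.AA

open Finset Polynomial

/-- Every map of `V` acts on the coordinates `I`, which have supports with at most `r` elements;
the coordinates with empty support are fixed. -/
structure Relabel (V I : Type) (r : ℕ) where
  act : (V → V) → I → I
  supp : I → Finset V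
  card_supp : ∀ i, (supp i).card ≤ r
  congr : ∀ (θ θ' : V → V) (i : I), (∀ v ∈ supp i, θ v = θ' v) → act θ i = act θ' i
  fix : ∀ (θ : V → V) (i : I), supp i = ∅ → act θ i = i
  ne : ∀ (θ θ' : V → V) (i i' : I), (supp i).Nonempty → (supp i').Nonempty →
    (∀ v w, θ v ≠ θ' w) → act θ i ≠ act θ' i'

section gen

variable {I : Type} [Fintype I] [DecidableEq I]

/-- the part of the variance due to the coordinates in `q` -/
noncomputable def part (q : Finset I) (f : (I → ℤˣ) → ℝ) : ℝ :=
  ∑ S ∈ univ.filter (fun S : Finset I => (S ∩ q).Nonempty), coef f S ^ 2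

lemma part_nonneg (q : Finset I) (f : (I → ℤˣ) → ℝ) : 0 ≤ part q f :=
  sum_nonneg fun _ _ => sq_nonneg _

lemma sum_const_cube (c : ℝ) : ∑ _x : I → ℤˣ, c = (2 : ℝ) ^ (Fintype.card I) * c := by
  rw [sum_const, nsmul_eq_mul, card_univ, card_cube]

lemma part_le (q : Finset I) (f : (I → ℤˣ) → ℝ) (δ : ℝ) (hf : ∀ x, |f x| ≤ δ) :
    part q f ≤ δ ^ 2 := by
  have h1 : part q f ≤ ∑ S, coef f S ^ 2 :=
    sum_le_sum_of_subset_of_nonneg (filter_subset _ _) fun _ _ _ => sq_nonneg _
  refine h1.trans ?_
  rw [← parseval, mean, div_le_iff₀ (by positivity), mul_comm, ← sum_const_cube (I := I)]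
  refine sum_le_sum fun x _ => ?_
  rw [← sq_abs (f x)]
  exact pow_le_pow_left₀ (abs_nonneg _) (hf x) 2

lemma part_add (q : Finset I) (f g : (I → ℤˣ) → ℝ) :
    part q f ≤ 2 * part q (fun x => f x - g x) + 2 * part q g := by
  unfold part
  rw [mul_sum, mul_sum, ← sum_add_distrib]
  refine sum_le_sum fun S _ => ?_
  have h1 : coef (fun x => f x - g x) S = coef f S - coef g S := by
    unfold coef
    rw [← sub_div, ← sum_sub_distrib]
    congr 1
    refine sum_congr rfl fun x _ => ?_
    ring
  rw [h1]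
  nlinarith [sq_nonneg ((coef f S - coef g S) - coef g S)]

/-- a function which does not depend on a coordinate -/
lemma coef_eq_zero (g : (I → ℤˣ) → ℝ) (j : I) (hg : ∀ x, g (flip j x) = g x) (S : Finset I)
    (hj : j ∈ S) : coef g S = 0 := by
  have h1 : ∑ x, g x * chi S x = ∑ x, g (flip j x) * chi S (flip j x) := by
    refine Fintype.sum_equiv ⟨flip j, flip j, flip_flip j, flip_flip j⟩ _ _ fun x => ?_
    simp [flip_flip]
  have h2 : ∑ x, g (flip j x) * chi S (flip j x) = - ∑ x, g x * chi S x := by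
    rw [← sum_neg_distrib]
    refine sum_congr rfl fun x _ => ?_
    rw [hg, chi_flip, if_pos hj]
    ring
  rw [h2] at h1
  have h3 : ∑ x, g x * chi S x = 0 := by linarith
  rw [coef, h3, zero_div]

/-- averages of nearly independent functions -/
lemma part_avg (q : Finset I) {K : Type} [Fintype K] [Nonempty K] (g : K → (I → ℤˣ) → ℝ)
    (hg : ∀ k x, |g k x| ≤ 1) (bad : K → K → Prop) [DecidableRel bad]
    (hbad : ∀ k k', ¬ bad k k' → ∀ j ∈ q, (∀ x, g k (flip j x) = g k x) ∨
      ∀ x, g k' (flip j x) = g k' x) :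
    part q (fun x => (∑ k, g k x) / Fintype.card K) ≤
      ((univ.filter (fun p : K × K => bad p.1 p.2)).card : ℝ) / (Fintype.card K : ℝ) ^ 2 := by
  have hK : (0 : ℝ) < Fintype.card K := by exact_mod_cast Fintype.card_pos
  set F := univ.filter (fun S : Finset I => (S ∩ q).Nonempty) with hF
  have hcoef : ∀ S, coef (fun x => (∑ k, g k x) / (Fintype.card K : ℝ)) S =
      (∑ k, coef (g k) S) / Fintype.card K := by
    intro S
    unfold coef
    have e1 : ∀ x : I → ℤˣ, (∑ k, g k x) / (Fintype.card K : ℝ) * chi S x =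
        (∑ k, g k x * chi S x) / Fintype.card K := by
      intro x
      rw [← sum_mul]
      ring
    rw [sum_congr rfl fun x _ => e1 x, ← sum_div, sum_comm, ← sum_div]
    ring
  have hone : ∀ k, ∑ S ∈ F, coef (g k) S ^ 2 ≤ 1 := by
    intro k
    have := part_le q (g k) 1 (hg k)
    rw [one_pow] at this
    exact this
  have h1 : part q (fun x => (∑ k, g k x) / (Fintype.card K : ℝ)) =
      (∑ k, ∑ k', ∑ S ∈ F, coef (g k) S * coef (g k') S) / (Fintype.card K : ℝ) ^ 2 := by
    unfold part
    rw [← hF, sum_congr rfl fun S _ => by rw [hcoef S]]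
    have e1 : ∀ S ∈ F, ((∑ k, coef (g k) S) / (Fintype.card K : ℝ)) ^ 2 =
        (∑ k, ∑ k', coef (g k) S * coef (g k') S) / (Fintype.card K : ℝ) ^ 2 := by
      intro S _
      rw [div_pow, sq (∑ k, coef (g k) S), sum_mul_sum]
    rw [sum_congr rfl e1, ← sum_div, sum_comm]
    congr 1
    refine sum_congr rfl fun k _ => ?_
    rw [sum_comm]
  rw [h1]
  refine div_le_div_of_nonneg_right ?_ (by positivity)
  have h2 : ∀ k k', ∑ S ∈ F, coef (g k) S * coef (g k') S ≤ if bad k k' then 1 else 0 := by
    intro k k'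
    split_ifs with h
    · have e1 : ∑ S ∈ F, coef (g k) S * coef (g k') S ≤
          ∑ S ∈ F, (coef (g k) S ^ 2 + coef (g k') S ^ 2) / 2 := by
        refine sum_le_sum fun S _ => ?_
        nlinarith [sq_nonneg (coef (g k) S - coef (g k') S)]
      rw [← sum_div, sum_add_distrib] at e1
      have e2 := hone k
      have e3 := hone k'
      linarith
    · refine le_of_eq (sum_eq_zero fun S hS => ?_)
      obtain ⟨j, hj⟩ := (mem_filter.1 hS).2
      rw [mem_inter] at hj
      rcases hbad k k' h j hj.2 with h' | h'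
      · rw [coef_eq_zero (g k) j h' S hj.1, zero_mul]
      · rw [coef_eq_zero (g k') j h' S hj.1, mul_zero]
  refine (sum_le_sum fun k _ => sum_le_sum fun k' _ => h2 k k').trans (le_of_eq ?_)
  have h3 : ∑ k, ∑ k', (if bad k k' then (1 : ℝ) else 0) =
      ∑ p : K × K, if bad p.1 p.2 then (1 : ℝ) else 0 := by
    rw [← univ_product_univ, sum_product]
  rw [h3, sum_boole]

/-- the variance -/
lemma var_eq_part (f : (I → ℤˣ) → ℝ) : var f = part univ f := by
  rw [var, parseval, ← coef_empty, part]
  have h1 : univ.filter (fun S : Finset I => (S ∩ univ).Nonempty) = univ.erase ∅ := by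
    ext S
    simp [nonempty_iff_ne_empty]
  rw [h1, ← add_sum_erase univ (fun S => coef f S ^ 2) (mem_univ ∅)]
  ring

end gen

section count

variable {V : Type} [Fintype V] [DecidableEq V]

lemma count_perm (w v : V) :
    Fintype.card V * (univ.filter (fun σ : Equiv.Perm V => σ w = v)).card =
      Fintype.card (Equiv.Perm V) := by
  have h1 : ∀ v', (univ.filter (fun σ : Equiv.Perm V => σ w = v')).card =
      (univ.filter (fun σ : Equiv.Perm V => σ w = v)).card := by
    intro v'
    refine card_bij (fun σ _ => Equiv.swap v' v * σ) ?_ ?_ ?_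
    · intro σ hσ
      rw [mem_filter] at hσ ⊢
      refine ⟨mem_univ _, ?_⟩
      rw [Equiv.Perm.mul_apply, hσ.2, Equiv.swap_apply_left]
    · intro σ _ τ _ h
      exact mul_left_cancel h
    · intro σ hσ
      rw [mem_filter] at hσ
      refine ⟨Equiv.swap v' v * σ, ?_, ?_⟩
      · rw [mem_filter]
        refine ⟨mem_univ _, ?_⟩
        rw [Equiv.Perm.mul_apply, hσ.2, Equiv.swap_apply_right]
      · rw [← mul_assoc, Equiv.swap_mul_self, one_mul]
  have h2 : Fintype.card (Equiv.Perm V) =
      ∑ v' : V, (univ.filter (fun σ : Equiv.Perm V => σ w = v')).card := by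
    rw [← card_univ]
    exact card_eq_sum_card_fiberwise fun σ _ => mem_univ (σ w)
  rw [h2, sum_congr rfl fun v' _ => h1 v', sum_const, smul_eq_mul, card_univ]

lemma count_bad {R : ℕ} (ι : Fin R → V) :
    Fintype.card V * (univ.filter (fun p : Equiv.Perm V × Equiv.Perm V =>
      ∃ a b : Fin R, p.1 (ι a) = p.2 (ι b))).card ≤ R ^ 2 * Fintype.card (Equiv.Perm V) ^ 2 := by
  classical
  have h1 : (univ.filter (fun p : Equiv.Perm V × Equiv.Perm V =>
      ∃ a b : Fin R, p.1 (ι a) = p.2 (ι b))).card ≤
      ∑ a : Fin R, ∑ b : Fin R, ∑ σ : Equiv.Perm V,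
        (univ.filter (fun τ : Equiv.Perm V => τ (ι b) = σ (ι a))).card := by
    rw [card_filter, ← univ_product_univ, sum_product]
    have h2 : ∀ σ τ : Equiv.Perm V, (if ∃ a b : Fin R, σ (ι a) = τ (ι b) then 1 else 0) ≤
        ∑ a : Fin R, ∑ b : Fin R, if τ (ι b) = σ (ι a) then 1 else 0 := by
      intro σ τ
      split_ifs with h
      · obtain ⟨a, b, hab⟩ := h
        have e1 : 1 ≤ ∑ b : Fin R, if τ (ι b) = σ (ι a) then 1 else 0 := by
          refine le_trans ?_ (single_le_sum (f := fun b : Fin R =>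
            if τ (ι b) = σ (ι a) then 1 else 0) (fun _ _ => Nat.zero_le _) (mem_univ b))
          simp [hab]
        refine e1.trans (single_le_sum (f := fun a : Fin R => ∑ b : Fin R,
            if τ (ι b) = σ (ι a) then 1 else 0) (fun _ _ => Nat.zero_le _) (mem_univ a))
      · exact Nat.zero_le _
    refine (sum_le_sum fun σ _ => sum_le_sum fun τ _ => h2 σ τ).trans (le_of_eq ?_)
    have h3 : ∀ σ : Equiv.Perm V, ∑ τ : Equiv.Perm V, ∑ a : Fin R, ∑ b : Fin R,
        (if τ (ι b) = σ (ι a) then 1 else 0) = ∑ a : Fin R, ∑ b : Fin R,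
          (univ.filter (fun τ : Equiv.Perm V => τ (ι b) = σ (ι a))).card := by
      intro σ
      rw [sum_comm]
      refine sum_congr rfl fun a _ => ?_
      rw [sum_comm]
      refine sum_congr rfl fun b _ => ?_
      rw [card_filter]
    rw [sum_congr rfl fun σ _ => h3 σ, sum_comm]
    refine sum_congr rfl fun a _ => ?_
    rw [sum_comm]
  calc Fintype.card V * (univ.filter (fun p : Equiv.Perm V × Equiv.Perm V =>
      ∃ a b : Fin R, p.1 (ι a) = p.2 (ι b))).card ≤
      Fintype.card V * ∑ a : Fin R, ∑ b : Fin R, ∑ σ : Equiv.Perm V,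
        (univ.filter (fun τ : Equiv.Perm V => τ (ι b) = σ (ι a))).card :=
        Nat.mul_le_mul_left _ h1
    _ = ∑ _a : Fin R, ∑ _b : Fin R, ∑ _σ : Equiv.Perm V, Fintype.card (Equiv.Perm V) := by
        rw [mul_sum]
        refine sum_congr rfl fun a _ => ?_
        rw [mul_sum]
        refine sum_congr rfl fun b _ => ?_
        rw [mul_sum]
        exact sum_congr rfl fun σ _ => count_perm _ _
    _ = R ^ 2 * Fintype.card (Equiv.Perm V) ^ 2 := by
        simp only [sum_const, smul_eq_mul, card_univ, Fintype.card_fin]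
        ring

end count

end Pool.Agent.J4H91.AA
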