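import Mathlib.Analysis.SpecialFunctions.Trigonometric.Chebyshev.Extremal
import Mathlib.Analysis.Calculus.MeanValue
import Mathlib.Analysis.Calculus.Deriv.Polynomial

/-!
# A polynomial bounded at the points `1 / R`
-/

set_option autoImplicit false

namespace Pool.Agent.J4H91.AA

open Polynomial Set

lemma deriv_one {n : ℕ} {P : ℝ[X]} (hP : P.degree ≤ n)
    (h : ∀ x ∈ Icc (-1 : ℝ) 1, |P.eval x| ≤ 1) : |(derivative P).eval 1| ≤ (n : ℝ) ^ 2 := by
  have hT : (derivative^[1] (Polynomial.Chebyshev.T ℝ n)).eval 1 = (n : ℝ) ^ 2 := by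
    rw [Function.iterate_one, Polynomial.Chebyshev.T_derivative_eq_U, eval_mul,
      Polynomial.Chebyshev.U_eval_one]
    simp
    ring
  have h1 := Polynomial.Chebyshev.eval_iterate_derivative_le_of_forall_abs_le_one (k := 1)
    (le_refl (1 : ℝ)) hP h
  have h2 := Polynomial.Chebyshev.eval_iterate_derivative_le_of_forall_abs_le_one (k := 1)
    (P := -P) (le_refl (1 : ℝ)) (by rwa [degree_neg]) (fun x hx => by
      rw [eval_neg, abs_neg]
      exact h x hx)
  rw [hT, Function.iterate_one] at h1 h2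
  rw [derivative_neg, eval_neg] at h2
  exact abs_le.2 ⟨by linarith, h1⟩

/-- the endpoint inequality on an interval; `m` may be negative -/
lemma deriv_end {n : ℕ} {P : ℝ[X]} (hP : P.natDegree ≤ n) (m c M : ℝ) (hm : m ≠ 0) (hM : 0 < M)
    (h : ∀ y ∈ Icc (-1 : ℝ) 1, |P.eval (m * y + c)| ≤ M) :
    |(derivative P).eval (m + c)| ≤ (n : ℝ) ^ 2 * M / |m| := by
  set Q : ℝ[X] := C (1 / M) * P.comp (C m * X + C c) with hQ
  have hev : ∀ y, Q.eval y = P.eval (m * y + c) / M := by
    intro y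
    rw [hQ]
    simp
    ring
  have hdeg : Q.degree ≤ n := by
    refine degree_le_of_natDegree_le ?_
    rw [hQ]
    refine (natDegree_C_mul_le _ _).trans ?_
    refine natDegree_comp_le.trans ?_
    have : (C m * X + C c : ℝ[X]).natDegree ≤ 1 := by
      exact natDegree_linear_le
    calc P.natDegree * (C m * X + C c : ℝ[X]).natDegree ≤ n * 1 := Nat.mul_le_mul hP this
      _ = n := mul_one n
  have h1 := deriv_one hdeg (fun y hy => by
    rw [hev, abs_div, abs_of_pos hM]
    exact (div_le_one hM).2 (h y hy))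
  have h2 : (derivative Q).eval 1 = (1 / M) * (m * (derivative P).eval (m + c)) := by
    rw [hQ, derivative_C_mul, derivative_comp]
    simp
  rw [h2, abs_mul, abs_mul, abs_of_pos (by positivity : 0 < 1 / M)] at h1
  rw [le_div_iff₀ (abs_pos.2 hm)]
  have h3 := mul_le_mul_of_nonneg_left h1 hM.le
  have h4 : M * (1 / M * (|m| * |(derivative P).eval (m + c)|)) =
      |(derivative P).eval (m + c)| * |m| := by
    field_simp
  rw [h4] at h3
  linarith

/-- a weak form of Markov's inequality -/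
lemma markov {n : ℕ} {P : ℝ[X]} (hP : P.natDegree ≤ n) (z M : ℝ) (hz : 0 < z) (hM : 0 < M)
    (h : ∀ x ∈ Icc (0 : ℝ) z, |P.eval x| ≤ M) (x : ℝ) (hx : x ∈ Icc (0 : ℝ) z) :
    |(derivative P).eval x| ≤ 4 * (n : ℝ) ^ 2 * M / z := by
  rcases le_total (z / 2) x with h1 | h1
  · have hx0 : 0 < x := by linarith
    have h2 := deriv_end hP (x / 2) (x / 2) M (by positivity) hM (fun y hy => h _ (by
      constructor
      · nlinarith [hy.1, hy.2]
      · nlinarith [hy.1, hy.2, hx.2]))
    rw [add_halves, abs_of_pos (by positivity : 0 < x / 2)] at h2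
    refine h2.trans ?_
    rw [div_le_div_iff₀ (by positivity) hz]
    have : 0 ≤ (n : ℝ) ^ 2 * M := by positivity
    nlinarith
  · have hx0 : 0 < z - x := by linarith
    have h2 := deriv_end hP (-((z - x) / 2)) ((z + x) / 2) M (by
      intro h0
      linarith) hM (fun y hy => h _ (by
      constructor
      · nlinarith [hy.1, hy.2, hx.1]
      · nlinarith [hy.1, hy.2, hx.1]))
    have h3 : -((z - x) / 2) + (z + x) / 2 = x := by ring
    rw [h3, abs_neg, abs_of_pos (by positivity : 0 < (z - x) / 2)] at h2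
    refine h2.trans ?_
    rw [div_le_div_iff₀ (by positivity) hz]
    have : 0 ≤ (n : ℝ) ^ 2 * M := by positivity
    nlinarith

lemma lipschitz {n : ℕ} {P : ℝ[X]} (hP : P.natDegree ≤ n) (z M : ℝ) (hz : 0 < z) (hM : 0 < M)
    (h : ∀ x ∈ Icc (0 : ℝ) z, |P.eval x| ≤ M) (x y : ℝ) (hx : x ∈ Icc (0 : ℝ) z)
    (hy : y ∈ Icc (0 : ℝ) z) :
    |P.eval y - P.eval x| ≤ 4 * (n : ℝ) ^ 2 * M / z * |y - x| := by
  have := Convex.norm_image_sub_le_of_norm_deriv_le (f := fun u => P.eval u) (s := Icc (0 : ℝ) z)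
    (C := 4 * (n : ℝ) ^ 2 * M / z) (fun u _ => P.differentiable.differentiableAt)
    (fun u hu => by
      rw [Polynomial.deriv, Real.norm_eq_abs]
      exact markov hP z M hz hM h u hu) (convex_Icc 0 z) hx hy
  simpa [Real.norm_eq_abs] using this

/-- boundedness on a grid -/
lemma grid {n : ℕ} {P : ℝ[X]} (hP : P.natDegree ≤ n) (z η : ℝ) (hz : 0 < z)
    (hη : 4 * (n : ℝ) ^ 2 / z * η ≤ 1 / 2)
    (h : ∀ x ∈ Icc (0 : ℝ) z, ∃ y ∈ Icc (0 : ℝ) z, |x - y| ≤ η ∧ |P.eval y| ≤ 1) :
    ∀ x ∈ Icc (0 : ℝ) z, |P.eval x| ≤ 2 := by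
  obtain ⟨x₀, hx₀, hmax⟩ := isCompact_Icc.exists_isMaxOn (s := Icc (0 : ℝ) z)
    ⟨0, by simp [hz.le]⟩ (f := fun u => |P.eval u|) P.differentiable.continuous.abs.continuousOn
  set M := |P.eval x₀| with hM
  have hall : ∀ x ∈ Icc (0 : ℝ) z, |P.eval x| ≤ M := fun x hx => hmax hx
  rcases le_or_gt M 2 with h2 | h2
  · exact fun x hx => (hall x hx).trans h2
  · exfalso
    obtain ⟨y, hy, hxy, hy1⟩ := h x₀ hx₀
    have h3 := lipschitz hP z M hz (by linarith) hall y x₀ hy hx₀
    have h4 : M ≤ 1 + |P.eval x₀ - P.eval y| := by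
      have := abs_sub_abs_le_abs_sub (P.eval x₀) (P.eval y)
      linarith
    have h5 : 4 * (n : ℝ) ^ 2 * M / z * |x₀ - y| ≤ 4 * (n : ℝ) ^ 2 * M / z * η :=
      mul_le_mul_of_nonneg_left hxy (by positivity)
    have h6 : 4 * (n : ℝ) ^ 2 * M / z * η = M * (4 * (n : ℝ) ^ 2 / z * η) := by ring
    have h7 : M * (4 * (n : ℝ) ^ 2 / z * η) ≤ M * (1 / 2) :=
      mul_le_mul_of_nonneg_left hη (by linarith)
    linarith

/-- **a polynomial bounded at `0` and at the points `1 / R`** -/
theorem small_range {n N : ℕ} (hn : 1 ≤ n) (hN : 64 * n ^ 4 ≤ N) {P : ℝ[X]}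
    (hP : P.natDegree ≤ n) (h0 : |P.eval 0| ≤ 1)
    (h : ∀ R : ℕ, 1 ≤ R → R ≤ N → |P.eval (1 / (R : ℝ))| ≤ 1) (R : ℕ) (hR : 8 * n ^ 2 ≤ R) :
    R ≤ N → |P.eval (1 / (R : ℝ)) - P.eval 0| ≤ 64 * (n : ℝ) ^ 4 / R := by
  intro hRN
  have hn' : (1 : ℝ) ≤ n := by exact_mod_cast hn
  have hR0 : 0 < 8 * n ^ 2 := by positivity
  have hR' : (8 * (n : ℝ) ^ 2) ≤ R := by exact_mod_cast hR
  have hN' : (64 * (n : ℝ) ^ 4) ≤ N := by exact_mod_cast hN
  set z : ℝ := 1 / (8 * (n : ℝ) ^ 2) with hz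
  have hz0 : 0 < z := by positivity
  have hbound : ∀ x ∈ Icc (0 : ℝ) z, |P.eval x| ≤ 2 := by
    refine grid hP z (1 / (64 * (n : ℝ) ^ 4)) hz0 ?_ ?_
    · rw [hz]
      have : 4 * (n : ℝ) ^ 2 / (1 / (8 * (n : ℝ) ^ 2)) * (1 / (64 * (n : ℝ) ^ 4)) = 1 / 2 := by
        field_simp
        ring
      rw [this]
    · intro x hx
      rcases le_or_gt x (1 / (N : ℝ)) with h1 | h1
      · refine ⟨0, ⟨le_rfl, hz0.le⟩, ?_, h0⟩
        rw [sub_zero, abs_of_nonneg hx.1]
        refine h1.trans (one_div_le_one_div_of_le (by positivity) hN')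
      · have hN0 : (0 : ℝ) < N := by
          have : (0 : ℝ) < 64 * (n : ℝ) ^ 4 := by positivity
          linarith
        have hx0 : 0 < x := lt_trans (by positivity) h1
        set r : ℕ := ⌊1 / x⌋₊ with hr
        have hr1 : (r : ℝ) ≤ 1 / x := Nat.floor_le (by positivity)
        have hr2 : 1 / x < r + 1 := Nat.lt_floor_add_one _
        have hr3 : 8 * n ^ 2 ≤ r := by
          refine Nat.le_floor ?_
          push_cast
          rw [le_div_iff₀ hx0]
          have h3 := hx.2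
          rw [hz, le_div_iff₀ (by positivity)] at h3
          linarith
        have hr3' : (8 * (n : ℝ) ^ 2) ≤ r := by exact_mod_cast hr3
        have hr0 : (0 : ℝ) < r := by
          have : (0 : ℝ) < 8 * (n : ℝ) ^ 2 := by positivity
          linarith
        have hrN : r + 1 ≤ N := by
          have h3 : (r : ℝ) < N := by
            refine lt_of_le_of_lt hr1 ?_
            rw [div_lt_iff₀ hx0]
            rw [div_lt_iff₀ hN0] at h1
            linarith
          exact_mod_cast h3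
        have hy1 : 1 / ((r : ℝ) + 1) < x := by
          rw [div_lt_iff₀ (by positivity)]
          rw [div_lt_iff₀ hx0] at hr2
          linarith
        have hy2 : x ≤ 1 / (r : ℝ) := by
          rw [le_div_iff₀ hr0]
          rw [le_div_iff₀ hx0] at hr1
          linarith
        refine ⟨1 / ((r : ℝ) + 1), ⟨by positivity, hy1.le.trans hx.2⟩, ?_, ?_⟩
        · rw [abs_of_nonneg (by linarith)]
          have h3 : 1 / (r : ℝ) - 1 / ((r : ℝ) + 1) = 1 / ((r : ℝ) * (r + 1)) := by
            field_simp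
            ring
          have h4 : 1 / ((r : ℝ) * (r + 1)) ≤ 1 / (64 * (n : ℝ) ^ 4) := by
            apply one_div_le_one_div_of_le (by positivity)
            have h5 : (8 * (n : ℝ) ^ 2) * (8 * (n : ℝ) ^ 2) ≤ (r : ℝ) * (r + 1) :=
              mul_le_mul hr3' (by linarith) (by positivity) (by positivity)
            nlinarith
          linarith
        · have := h (r + 1) (by omega) hrN
          push_cast at this
          exact this
  have hRpos : (0 : ℝ) < R := by
    have : (0 : ℝ) < 8 * (n : ℝ) ^ 2 := by positivity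
    linarith
  have hmem : 1 / (R : ℝ) ∈ Icc (0 : ℝ) z := ⟨by positivity, by
    rw [hz]
    exact one_div_le_one_div_of_le (by positivity) hR'⟩
  have h1 := lipschitz hP z 2 hz0 (by norm_num) hbound 0 (1 / (R : ℝ)) ⟨le_rfl, hz0.le⟩ hmem
  refine h1.trans (le_of_eq ?_)
  rw [sub_zero, abs_of_pos (by positivity), hz]
  field_simp
  ring

end Pool.Agent.J4H91.AA
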