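import Pool.Agent.J4H91.AA.Final
import Mathlib.Data.Sym.Card

/-!
# Many-sorted relational structures and hypergraphs
-/

set_option autoImplicit false

namespace Pool.Agent.J4H91.AA

open Finset

section parts

variable {I : Type} [Fintype I] [DecidableEq I]

lemma part_eq (q : Finset I) (f : (I → ℤˣ) → ℝ) :
    part q f = ∑ S : Finset I, if (S ∩ q).Nonempty then coef f S ^ 2 else 0 := by
  rw [part, sum_filter]

lemma part_le_sum_inf (q : Finset I) (f : (I → ℤˣ) → ℝ) : part q f ≤ ∑ p ∈ q, inf f p := by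
  rw [part_eq, sum_congr rfl fun p _ => inf_eq f p, sum_comm]
  refine sum_le_sum fun S _ => ?_
  split_ifs with h
  · obtain ⟨p, hp⟩ := h
    rw [mem_inter] at hp
    refine le_trans ?_ (single_le_sum (f := fun p => if p ∈ S then coef f S ^ 2 else 0)
      (fun p _ => ?_) hp.2)
    · simp [hp.1]
    · split_ifs
      · exact sq_nonneg _
      · exact le_rfl
  · refine sum_nonneg fun p _ => ?_
    split_ifs
    · exact sq_nonneg _
    · exact le_rfl

lemma part_union {K : Type} (f : (I → ℤˣ) → ℝ) (B : Finset K) (q : K → Finset I)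
    (q0 : Finset I) (h : ∀ p, p ∈ q0 ∨ ∃ s ∈ B, p ∈ q s) :
    var f ≤ ∑ s ∈ B, part (q s) f + part q0 f := by
  rw [var_eq_part, part_eq, part_eq, sum_congr rfl fun s _ => part_eq (q s) f, sum_comm,
    ← sum_add_distrib]
  refine sum_le_sum fun S _ => ?_
  have hB : ∀ s ∈ B, 0 ≤ if (S ∩ q s).Nonempty then coef f S ^ 2 else 0 := by
    intro s _
    split_ifs
    · exact sq_nonneg _
    · exact le_rfl
  split_ifs with h1 h2 h2
  · have := sum_nonneg hB
    linarith
  · obtain ⟨p, hp⟩ := h1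
    rw [mem_inter] at hp
    rcases h p with h3 | ⟨s, hs, h3⟩
    · exact absurd ⟨p, mem_inter.2 ⟨hp.1, h3⟩⟩ h2
    · have h4 := single_le_sum hB hs
      rw [if_pos ⟨p, mem_inter.2 ⟨hp.1, h3⟩⟩] at h4
      linarith
  · have := sum_nonneg hB
    have := sq_nonneg (coef f S)
    linarith
  · have := sum_nonneg hB
    linarith

end parts

section multi

variable {K : Type} [DecidableEq K] {V : K → Type}

/-- a map of one sort extended by the identity -/
def upd (s : K) (θ : V s → V s) (s' : K) : V s' → V s' :=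
  Function.update (β := fun s' => V s' → V s') (fun _ => id) s θ s'

lemma upd_congr (s : K) (θ θ' : V s → V s) (s' : K) (u : V s')
    (h : ∀ v, (⟨s', u⟩ : Σ s, V s) = ⟨s, v⟩ → θ v = θ' v) : upd s θ s' u = upd s θ' s' u := by
  by_cases hs : s' = s
  · subst hs
    simp only [upd, Function.update_self]
    exact h u rfl
  · simp only [upd, Function.update_of_ne hs]

lemma upd_fix (s : K) (θ : V s → V s) (s' : K) (u : V s')
    (h : ∀ v, (⟨s', u⟩ : Σ s, V s) ≠ ⟨s, v⟩) : upd s θ s' u = u := by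
  by_cases hs : s' = s
  · subst hs
    exact absurd rfl (h u)
  · simp only [upd, Function.update_of_ne hs, id]

lemma upd_hit (s : K) (θ θ' : V s → V s) (s' : K) (u u' : V s') (v : V s)
    (h : (⟨s', u⟩ : Σ s, V s) = ⟨s, v⟩) (h' : upd s θ s' u = upd s θ' s' u') :
    ∃ v w, θ v = θ' w := by
  have hs : s' = s := congrArg Sigma.fst h
  subst hs
  simp only [upd, Function.update_self] at h'
  exact ⟨u, u', h'⟩

variable {J : Type} (a : J → ℕ) (τ : ∀ j, Fin (a j) → K)

/-- the atomic facts about a many-sorted relational structure -/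
abbrev Atom (V : K → Type) : Type := Σ j : J, ∀ i : Fin (a j), V (τ j i)

/-- the action of the maps of one sort -/
def sortRelabel [∀ s, Fintype (V s)] [∀ s, DecidableEq (V s)] (r : ℕ) (ha : ∀ j, a j ≤ r)
    (s : K) : Relabel (V s) (Atom a τ V) r where
  act θ p := ⟨p.1, fun i => upd s θ (τ p.1 i) (p.2 i)⟩
  supp p := univ.filter (fun v => ∃ i : Fin (a p.1), (⟨τ p.1 i, p.2 i⟩ : Σ s, V s) = ⟨s, v⟩)
  card_supp p := by
    classical
    refine le_trans ?_ (ha p.1)
    rw [← card_image_of_injective _ (sigma_mk_injective (i := s) (β := V))]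
    have h1 : (univ.filter (fun v => ∃ i : Fin (a p.1),
        (⟨τ p.1 i, p.2 i⟩ : Σ s, V s) = ⟨s, v⟩)).image (Sigma.mk s) ⊆
        (univ : Finset (Fin (a p.1))).image fun i => (⟨τ p.1 i, p.2 i⟩ : Σ s, V s) := by
      intro w hw
      obtain ⟨v, hv, rfl⟩ := mem_image.1 hw
      obtain ⟨i, hi⟩ := (mem_filter.1 hv).2
      exact mem_image.2 ⟨i, mem_univ _, hi⟩
    refine (card_le_card h1).trans (card_image_le.trans ?_)
    rw [card_univ, Fintype.card_fin]
  congr θ θ' p h := by
    congr 1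
    funext i
    exact upd_congr s θ θ' _ _ fun v hv => h v (mem_filter.2 ⟨mem_univ _, i, hv⟩)
  fix θ p h := by
    obtain ⟨j, t⟩ := p
    simp only
    congr 1
    funext i
    refine upd_fix s θ _ _ fun v hv => ?_
    have : v ∈ (∅ : Finset (V s)) := by
      rw [← h]
      exact mem_filter.2 ⟨mem_univ _, i, hv⟩
    simp at this
  ne θ θ' p p' hp hp' h heq := by
    obtain ⟨j, t⟩ := p
    obtain ⟨j', t'⟩ := p'
    have hj : j = j' := congrArg Sigma.fst heq
    subst hj
    obtain ⟨v, hv⟩ := hp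
    obtain ⟨i, hi⟩ := (mem_filter.1 hv).2
    have h2 : upd s θ (τ j i) (t i) = upd s θ' (τ j i) (t' i) :=
      congrFun (eq_of_heq (Sigma.mk.inj heq).2) i
    obtain ⟨v, w, hvw⟩ := upd_hit s θ θ' _ _ _ v hi h2
    exact h v w hvw

end multi

section main

variable {K : Type} [Fintype K] [DecidableEq K] {V : K → Type} [∀ s, Fintype (V s)]
  [∀ s, DecidableEq (V s)] {J : Type} [Fintype J] [DecidableEq J] (a : J → ℕ)
  (τ : ∀ j, Fin (a j) → K)

theorem multi [Nonempty K] (r d : ℕ) (hr : 1 ≤ r) (hd : 1 ≤ d) (ha : ∀ j, a j ≤ r)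
    (f : (Atom a τ V → ℤˣ) → ℝ) (hf : ∀ x, |f x| ≤ 1)
    (hdeg : ∀ S : Finset (Atom a τ V), d < S.card → ∑ x, f x * chi S x = 0)
    (hinv : ∀ (σ : ∀ s, Equiv.Perm (V s)) (x : Atom a τ V → ℤˣ),
      f (fun p => x ⟨p.1, fun i => σ (τ p.1 i) (p.2 i)⟩) = f x) (hv : 0 < var f) :
    ∃ p, var f ^ (2 * r + 1) ≤
      2 * (Fintype.card J : ℝ) * (266256 * (Fintype.card K : ℝ) ^ 2 * ((r * d : ℕ) : ℝ) ^ 8) ^ r *
        inf f p := by
  classical
  set t : ℝ := ((r * d : ℕ) : ℝ) with ht
  have ht1 : 1 ≤ t := by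
    rw [ht]
    exact_mod_cast Nat.mul_pos hr hd
  set k : ℝ := (Fintype.card K : ℝ) with hk
  have hk1 : 1 ≤ k := by
    rw [hk]
    exact_mod_cast Fintype.card_pos
  set m : ℝ := (Fintype.card J : ℝ) with hm
  set v := var f with hvdef
  have hv1 : v ≤ 1 := by
    rw [hvdef, var_eq_part]
    have := part_le univ f 1 hf
    rwa [one_pow] at this
  set A : ℝ := 266256 * k ^ 2 * t ^ 8 with hA
  have hA1 : 1 ≤ A := by
    have h1 : 1 ≤ k ^ 2 := one_le_pow₀ hk1
    have h2 : 1 ≤ t ^ 8 := one_le_pow₀ ht1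
    rw [hA]
    nlinarith
  set T : ℝ := A / v ^ 2 with hT
  have hT1 : 1 ≤ T := by
    rw [hT, le_div_iff₀ (by positivity)]
    have : v ^ 2 ≤ 1 := pow_le_one₀ hv.le hv1
    linarith
  set q : K → Finset (Atom a τ V) := fun s =>
    univ.filter fun p => ((sortRelabel a τ r ha s).supp p).Nonempty with hq
  -- the large sorts contribute little
  have hbig : ∀ s : K, T < (Fintype.card (V s) : ℝ) → part (q s) f < v / (2 * k) := by
    intro s hs
    have h1 := card_le (sortRelabel a τ r ha s) f hf (by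
      intro σ x
      have h2 := hinv (Function.update (fun s' => (1 : Equiv.Perm (V s'))) s σ) x
      rw [← h2]
      congr 1
      funext p
      change x ⟨p.1, fun i => upd s σ (τ p.1 i) (p.2 i)⟩ = _
      congr 2
      funext i
      by_cases h : τ p.1 i = s
      · generalize p.2 i = u
        generalize τ p.1 i = s' at h u
        subst h
        simp [upd]
      · simp [upd, h]) d hdeg hr hd
    rw [← ht] at h1
    by_contra hcon
    push Not at hcon
    have h2 : (v / (2 * k)) ^ 2 ≤ part (q s) f ^ 2 := pow_le_pow_left₀ (by positivity) hcon 2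
    have h3 : T * (v / (2 * k)) ^ 2 = 66564 * t ^ 8 := by
      rw [hT, hA]
      field_simp
      norm_num
    have h4 : T * (v / (2 * k)) ^ 2 < (Fintype.card (V s) : ℝ) * (v / (2 * k)) ^ 2 :=
      mul_lt_mul_of_pos_right hs (by positivity)
    have h5 : (Fintype.card (V s) : ℝ) * (v / (2 * k)) ^ 2 ≤
        (Fintype.card (V s) : ℝ) * part (q s) f ^ 2 :=
      mul_le_mul_of_nonneg_left h2 (Nat.cast_nonneg _)
    have h6 : (Fintype.card (V s) : ℝ) * part (q s) f ^ 2 ≤ 66564 * t ^ 8 := h1
    linarith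
  set B : Finset K := univ.filter fun s => T < (Fintype.card (V s) : ℝ) with hB
  set J0 : Finset J := univ.filter fun j => ∀ i, ¬ T < (Fintype.card (V (τ j i)) : ℝ) with hJ0
  set q0 : Finset (Atom a τ V) := J0.sigma fun j => univ with hq0
  have h1 := part_union f B q q0 (by
    intro p
    by_cases h : ∀ i, ¬ T < (Fintype.card (V (τ p.1 i)) : ℝ)
    · left
      rw [hq0, mem_sigma]
      exact ⟨mem_filter.2 ⟨mem_univ _, h⟩, mem_univ _⟩
    · right
      push Not at h
      obtain ⟨i, hi⟩ := h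
      refine ⟨τ p.1 i, mem_filter.2 ⟨mem_univ _, hi⟩, mem_filter.2 ⟨mem_univ _, ?_⟩⟩
      exact ⟨p.2 i, mem_filter.2 ⟨mem_univ _, i, rfl⟩⟩)
  have h2 : ∑ s ∈ B, part (q s) f ≤ v / 2 := by
    calc ∑ s ∈ B, part (q s) f ≤ ∑ _s ∈ B, v / (2 * k) :=
        sum_le_sum fun s hs => (hbig s (mem_filter.1 hs).2).le
      _ = B.card * (v / (2 * k)) := by rw [sum_const, nsmul_eq_mul]
      _ ≤ k * (v / (2 * k)) := by
        refine mul_le_mul_of_nonneg_right ?_ (by positivity)
        rw [hk, ← card_univ]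
        exact_mod_cast card_le_card (subset_univ _)
      _ = v / 2 := by field_simp
  have h3 := part_le_sum_inf q0 f
  have h4 : v / 2 ≤ ∑ p ∈ q0, inf f p := by linarith
  -- the number of the remaining coordinates
  have h5 : (q0.card : ℝ) ≤ m * T ^ r := by
    rw [hq0, card_sigma]
    push_cast
    calc ∑ j ∈ J0, ((univ : Finset (∀ i : Fin (a j), V (τ j i))).card : ℝ) ≤
        ∑ _j ∈ J0, T ^ r := by
          refine sum_le_sum fun j hj => ?_
          rw [card_univ, Fintype.card_pi]
          push_cast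
          calc ∏ i : Fin (a j), (Fintype.card (V (τ j i)) : ℝ) ≤ ∏ _i : Fin (a j), T :=
              prod_le_prod (fun i _ => Nat.cast_nonneg _) fun i _ =>
                not_lt.1 ((mem_filter.1 hj).2 i)
            _ = T ^ (a j) := by rw [prod_const, card_univ, Fintype.card_fin]
            _ ≤ T ^ r := pow_le_pow_right₀ hT1 (ha j)
      _ = J0.card * T ^ r := by rw [sum_const, nsmul_eq_mul]
      _ ≤ m * T ^ r := by
        refine mul_le_mul_of_nonneg_right ?_ (by positivity)
        rw [hm, ← card_univ]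
        exact_mod_cast card_le_card (subset_univ _)
  have hne : q0.Nonempty := by
    rw [nonempty_iff_ne_empty]
    intro h0
    rw [h0, sum_empty] at h4
    linarith
  have hmpos : 0 < m := by
    obtain ⟨p, _⟩ := hne
    rw [hm]
    have : Nonempty J := ⟨p.1⟩
    exact_mod_cast Fintype.card_pos
  by_contra hcon
  push Not at hcon
  have h6 : ∑ p ∈ q0, 2 * m * A ^ r * inf f p < ∑ _p ∈ q0, v ^ (2 * r + 1) :=
    sum_lt_sum_of_nonempty hne fun p _ => hcon p
  rw [← mul_sum, sum_const, nsmul_eq_mul] at h6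
  have h7 : 2 * m * A ^ r * (v / 2) ≤ 2 * m * A ^ r * ∑ p ∈ q0, inf f p :=
    mul_le_mul_of_nonneg_left h4 (by positivity)
  have h8 : (q0.card : ℝ) * v ^ (2 * r + 1) ≤ m * T ^ r * v ^ (2 * r + 1) :=
    mul_le_mul_of_nonneg_right h5 (by positivity)
  have h9 : m * T ^ r * v ^ (2 * r + 1) = 2 * m * A ^ r * (v / 2) := by
    rw [hT, div_pow, ← pow_mul, pow_succ]
    field_simp
  linarith

end main

section hyper

variable {V : Type} [Fintype V] [DecidableEq V]

/-- the maps of the vertices act on the multisets of vertices -/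
def symRelabel (r : ℕ) (hr : 1 ≤ r) : Relabel V (Sym V r) r where
  act θ e := e.map θ
  supp e := (e : Multiset V).toFinset
  card_supp e := (Multiset.toFinset_card_le _).trans (le_of_eq e.2)
  congr θ θ' e h := by
    apply Sym.coe_injective
    rw [Sym.coe_map, Sym.coe_map]
    exact Multiset.map_congr rfl fun v hv => h v (Multiset.mem_toFinset.2 hv)
  fix θ e h := by
    exfalso
    have h1 : (e : Multiset V) = 0 := Multiset.toFinset_eq_empty.1 h
    have h2 := e.2
    rw [show e.1 = (0 : Multiset V) from h1] at h2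
    simp at h2
    omega
  ne θ θ' e e' he he' h heq := by
    obtain ⟨v, hv⟩ := he
    rw [Multiset.mem_toFinset] at hv
    have h1 : θ v ∈ ((e.map θ : Sym V r) : Multiset V) := by
      rw [Sym.coe_map]
      exact Multiset.mem_map_of_mem θ hv
    have heq' : e.map θ = e'.map θ' := heq
    rw [heq', Sym.coe_map] at h1
    obtain ⟨w, _, hw⟩ := Multiset.mem_map.1 h1
    exact h v w hw.symm

theorem hyper (r d : ℕ) (hr : 1 ≤ r) (hd : 1 ≤ d)
    (f : (Sym V r → ℤˣ) → ℝ) (hf : ∀ x, |f x| ≤ 1)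
    (hdeg : ∀ S : Finset (Sym V r), d < S.card → ∑ x, f x * chi S x = 0)
    (hinv : ∀ (σ : Equiv.Perm V) (x : Sym V r → ℤˣ), f (fun e => x (e.map σ)) = f x)
    (hv : 0 < var f) :
    ∃ e, var f ^ (2 * r + 1) ≤ (66564 * ((r * d : ℕ) : ℝ) ^ 8) ^ r * inf f e := by
  classical
  have h1 := card_le (symRelabel r hr) f hf hinv d hdeg hr hd
  have h2 : (univ.filter fun e : Sym V r => ((symRelabel r hr).supp e).Nonempty) = univ := by
    rw [filter_true_of_mem]
    intro e _
    rw [nonempty_iff_ne_empty]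
    intro h
    have h1 : (e : Multiset V) = 0 := Multiset.toFinset_eq_empty.1 h
    have h2 := e.2
    rw [show e.1 = (0 : Multiset V) from h1] at h2
    simp at h2
    omega
  rw [h2, ← var_eq_part] at h1
  set v := var f with hvdef
  set A : ℝ := 66564 * ((r * d : ℕ) : ℝ) ^ 8 with hA
  have h3 := part_le_sum_inf univ f
  rw [← var_eq_part, ← hvdef] at h3
  have hne : (univ : Finset (Sym V r)).Nonempty := by
    rw [nonempty_iff_ne_empty]
    intro h0
    rw [h0, sum_empty] at h3
    linarith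
  have h4 : ((univ : Finset (Sym V r)).card : ℝ) ≤ (Fintype.card V : ℝ) ^ r := by
    have h5 : Fintype.card (Sym V r) ≤ Fintype.card (Fin r → V) := by
      refine Fintype.card_le_of_surjective
        (fun g : Fin r → V => (⟨(List.ofFn g : Multiset V), by simp⟩ : Sym V r)) ?_
      rintro ⟨m, hm⟩
      obtain ⟨l, rfl⟩ := Quot.exists_rep m
      have hl : l.length = r := hm
      subst hl
      refine ⟨l.get, ?_⟩
      apply Subtype.ext
      change ((List.ofFn l.get : List V) : Multiset V) = (l : Multiset V)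
      rw [List.ofFn_get]
    rw [Fintype.card_fun, Fintype.card_fin] at h5
    rw [card_univ]
    exact_mod_cast h5
  by_contra hcon
  push Not at hcon
  have h6 : ∑ e : Sym V r, A ^ r * inf f e < ∑ _e : Sym V r, v ^ (2 * r + 1) :=
    sum_lt_sum_of_nonempty hne fun e _ => hcon e
  rw [← mul_sum, sum_const, nsmul_eq_mul] at h6
  have hA0 : 0 ≤ A := by positivity
  have h7 : A ^ r * v ≤ A ^ r * ∑ e : Sym V r, inf f e :=
    mul_le_mul_of_nonneg_left h3 (by positivity)
  have h8 : ((univ : Finset (Sym V r)).card : ℝ) * v ^ (2 * r + 1) ≤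
      (Fintype.card V : ℝ) ^ r * v ^ (2 * r + 1) :=
    mul_le_mul_of_nonneg_right h4 (by positivity)
  have h9 : (Fintype.card V : ℝ) ^ r * v ^ (2 * r + 1) =
      ((Fintype.card V : ℝ) * v ^ 2) ^ r * v := by
    rw [mul_pow, ← pow_mul, pow_succ]
    ring
  have h10 : ((Fintype.card V : ℝ) * v ^ 2) ^ r ≤ A ^ r :=
    pow_le_pow_left₀ (by positivity) h1 r
  have h11 := mul_le_mul_of_nonneg_right h10 hv.le
  linarith

end hyper

end Pool.Agent.J4H91.AA
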